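import Pool.Agent.H92.II.Def

/-!
# [H92 II AD] addresses and blocks

PROOF. `ad_encode`: `Encodable.encodek`. `rn_app`: induction on `w`: `Rn Q (w ++ (c, j) :: u) = Rn Q u + c Q ^ u.length + (multiple of Q ^ (u.length + 1))`. `bk_ex`: `Sb 0 = 0`, `Sb` is strictly increasing, so every
`n` is in exactly one `[Sb j, Sb (j + 1))` (`Nat.find` or induction). `vb_card`: `y` is injective. `vb_dis`: the index intervals are disjoint.
`late`: the nodes `l` with `Encodable.encode l < b` are finitely many, let `j₀` be larger than all second components of their members; then every `l = w ++ (c, j) :: u` with `j ≥ j₀` has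
`b ≤ Encodable.encode l`.
-/

set_option autoImplicit false

namespace Pool.Agent.H92.II

theorem ad_encode (Q : ℕ) (l : List (Fin Q × ℕ)) : ad Q (Encodable.encode l) = l := by
  unfold ad
  rw [Encodable.encodek]
  rfl

theorem rn_app (Q : ℕ) (w u : List (Fin Q × ℕ)) (c : Fin Q) (j : ℕ) :
    Rn Q (w ++ (c, j) :: u) ≡ Rn Q u + c * Q ^ u.length [MOD Q ^ (u.length + 1)] := by
  induction w with
  | nil => exact Nat.ModEq.refl _
  | cons p w ih =>
    have h1 : Rn Q ((p :: w) ++ (c, j) :: u) =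
        Rn Q (w ++ (c, j) :: u) + p.1 * Q ^ (w ++ (c, j) :: u).length := rfl
    have h2 : (p.1 : ℕ) * Q ^ (w ++ (c, j) :: u).length ≡ 0 [MOD Q ^ (u.length + 1)] := by
      rw [Nat.modEq_zero_iff_dvd]
      refine Dvd.dvd.mul_left (pow_dvd_pow Q ?_) _
      rw [List.length_append, List.length_cons]
      omega
    rw [h1]
    exact ih.add h2

private theorem sb_succ (j : ℕ) : Sb (j + 1) = Sb j + 2 ^ (20 * 2 ^ j) := by
  unfold Sb
  rw [Finset.sum_range_succ]

private theorem sb_lt (j : ℕ) : Sb j < Sb (j + 1) := by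
  rw [sb_succ]
  have h : 0 < 2 ^ (20 * 2 ^ j) := Nat.pow_pos (by norm_num)
  omega

private theorem sb_mono : StrictMono Sb := strictMono_nat_of_lt_succ sb_lt

theorem bk_ex (n : ℕ) : ∃ j, Sb j ≤ n ∧ n < Sb (j + 1) := by
  induction n with
  | zero =>
    have h : Sb 0 = 0 := by
      unfold Sb
      rw [Finset.sum_range_zero]
    have h2 := sb_lt 0
    exact ⟨0, h.le, by omega⟩
  | succ n ih =>
    obtain ⟨j, h1, h2⟩ := ih
    by_cases h3 : n + 1 < Sb (j + 1)
    · exact ⟨j, by omega, h3⟩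
    · have h4 := sb_lt (j + 1)
      exact ⟨j + 1, by omega, by omega⟩

theorem bk_uniq {n j j' : ℕ} (h : Sb j ≤ n) (h1 : n < Sb (j + 1)) (h' : Sb j' ≤ n)
    (h1' : n < Sb (j' + 1)) : j = j' := by
  rcases Nat.lt_trichotomy j j' with h2 | h2 | h2
  · have h3 : Sb (j + 1) ≤ Sb j' := sb_mono.monotone h2
    omega
  · exact h2
  · have h3 : Sb (j' + 1) ≤ Sb j := sb_mono.monotone h2
    omega

theorem vb_card {y : ℕ → ℕ} (hy : StrictMono y) (j : ℕ) : (Vb y j).card = 2 ^ (20 * 2 ^ j) := by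
  unfold Vb
  rw [Finset.card_image_of_injective _ hy.injective, Nat.card_Ico, sb_succ, Nat.add_sub_cancel_left]

theorem vb_dis {y : ℕ → ℕ} (hy : StrictMono y) (i j : ℕ) (hij : i ≠ j) :
    Disjoint (Vb y i) (Vb y j) := by
  rw [Finset.disjoint_left]
  intro a ha hb
  obtain ⟨n, hn, rfl⟩ := Finset.mem_image.1 ha
  obtain ⟨k, hk, hkn⟩ := Finset.mem_image.1 hb
  have h := hy.injective hkn
  subst h
  rw [Finset.mem_Ico] at hn hk
  exact hij (bk_uniq hn.1 hn.2 hk.1 hk.2)

/-- points in late blocks are late -/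
theorem vb_late {y : ℕ → ℕ} {j : ℕ} {a : ℕ} (h : a ∈ Vb y j) :
    ∃ n, a = y n ∧ Sb j ≤ n ∧ n < Sb (j + 1) ∧ j ≤ n := by
  obtain ⟨n, hn, rfl⟩ := Finset.mem_image.1 h
  rw [Finset.mem_Ico] at hn
  exact ⟨n, rfl, hn.1, hn.2, (sb_mono.id_le j).trans hn.1⟩

theorem late (Q : ℕ) (b : ℕ) : ∃ j₀ : ℕ, ∀ (w u : List (Fin Q × ℕ)) (c : Fin Q) (j : ℕ), j₀ ≤ j →
    b ≤ Encodable.encode (w ++ (c, j) :: u) := by
  refine ⟨(∑ k ∈ Finset.range b, ((ad Q k).map Prod.snd).sum) + 1, fun w u c j hj => ?_⟩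
  by_contra hcon
  push Not at hcon
  have h1 : j ∈ (ad Q (Encodable.encode (w ++ (c, j) :: u))).map Prod.snd := by
    rw [ad_encode]
    exact List.mem_map.2 ⟨(c, j), by simp, rfl⟩
  have h2 : j ≤ ((ad Q (Encodable.encode (w ++ (c, j) :: u))).map Prod.snd).sum :=
    List.le_sum_of_mem h1
  have h3 : ((ad Q (Encodable.encode (w ++ (c, j) :: u))).map Prod.snd).sum ≤
      ∑ k ∈ Finset.range b, ((ad Q k).map Prod.snd).sum :=
    Finset.single_le_sum (f := fun k => ((ad Q k).map Prod.snd).sum) (fun _ _ => Nat.zero_le _)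
      (Finset.mem_range.2 hcon)
  omega

end Pool.Agent.H92.II
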