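import Mathlib

/-!
# [H92 II LM] a limit measure on patterns

`ι` countable, `X N : ι → Bool` the pattern of `N`, `μ n` a probability measure on the finite set `T n` of numbers `> n`.
PROOF. `ι → Bool` is compact and Hausdorff, with the Borel structure of the product (`Pi.borelSpace`, countable index). Let `P n : ProbabilityMeasure (ι → Bool)` be
`∑ N ∈ T n, ENNReal.ofReal (μ n N) • dirac (X N)`. `CompactSpace (ProbabilityMeasure E)` is an instance for compact `E` (Mathlib/MeasureTheory/Measure/Prokhorov.lean), so `P n` converges along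
`hyperfilter ℕ` (`Ultrafilter.le_nhds_lim` or `isCompact_univ.ultrafilter_le_nhds`) to some `P`. For a clopen set `C` the indicator is continuous (`IsClopen`, `continuous_indicator` or
`IsClopen.continuous_indicator`), so `P n C → P C` along `hyperfilter ℕ` (`ProbabilityMeasure.tendsto_iff_forall_integral_tendsto` with a bounded continuous function, or a lemma on null frontiers:
`frontier C = ∅`), and `(P n) C = ∑ N ∈ (T n).filter (X N ∈ C), μ n N` as a real number. First claim: `ge_of_tendsto`, `Nat.hyperfilter_le_atTop`. Second claim: for a finite set `F` of indices and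
`σ : ι → Bool` the cylinder `{ω | ∀ q ∈ F, ω q = σ q}` is clopen; if only finitely many `X N` are in it, then `(P n) C = 0` for large `n` (`hT`), so `P C = 0`. There are only countably many such
cylinders (`F : Finset ι`, and `σ` restricted to `F`: use the cylinders indexed by `F` and a subset `F' : Finset ι` of `F`, `ω q = true ↔ q ∈ F'`), so almost every `ω` is in none of them (`ae_all_iff`).
-/

set_option autoImplicit false

open MeasureTheory Filter

namespace Pool.Agent.H92.II

private theorem lm_real {ι : Type} [Countable ι] (X : ℕ → ι → Bool) (T : Finset ℕ) (μ : ℕ → ℝ)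
    (hμ0 : ∀ N, 0 ≤ μ N) (C : Set (ι → Bool)) (hC : MeasurableSet C) [DecidablePred fun N => X N ∈ C] :
    (∑ N ∈ T, ENNReal.ofReal (μ N) • Measure.dirac (X N)).real C =
      ∑ N ∈ T.filter (fun N => X N ∈ C), μ N := by
  have h1 : (∑ N ∈ T, ENNReal.ofReal (μ N) • Measure.dirac (X N)) C =
      ENNReal.ofReal (∑ N ∈ T.filter (fun N => X N ∈ C), μ N) := by
    rw [Measure.finsetSum_apply, ENNReal.ofReal_sum_of_nonneg (fun N _ => hμ0 N), Finset.sum_filter]
    refine Finset.sum_congr rfl fun N _ => ?_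
    rw [Measure.smul_apply, Measure.dirac_apply' _ hC, smul_eq_mul]
    by_cases h : X N ∈ C
    · rw [Set.indicator_of_mem h, if_pos h, Pi.one_apply, mul_one]
    · rw [Set.indicator_of_notMem h, if_neg h, mul_zero]
  rw [measureReal_def, h1, ENNReal.toReal_ofReal (Finset.sum_nonneg fun N _ => hμ0 N)]

open Classical in
theorem lim_meas {ι : Type} [Countable ι] (X : ℕ → ι → Bool) (T : ℕ → Finset ℕ) (μ : ℕ → ℕ → ℝ)
    (hT : ∀ n, ∀ N ∈ T n, n < N) (hμ0 : ∀ n N, 0 ≤ μ n N) (hμ1 : ∀ n, ∑ N ∈ T n, μ n N = 1) :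
    ∃ P : Measure (ι → Bool), IsProbabilityMeasure P ∧
      (∀ C : Set (ι → Bool), IsClopen C → ∀ (δ : ℝ) (n₀ : ℕ),
        (∀ n, n₀ ≤ n → δ ≤ ∑ N ∈ (T n).filter (fun N => X N ∈ C), μ n N) → δ ≤ P.real C) ∧
      ∀ᵐ ω ∂P, ∀ F : Finset ι, {N : ℕ | ∀ q ∈ F, X N q = ω q}.Infinite := by
  have hPn : ∀ n, IsProbabilityMeasure (∑ N ∈ T n, ENNReal.ofReal (μ n N) • Measure.dirac (X N)) := by
    intro n
    constructor
    have h1 := lm_real X (T n) (μ n) (hμ0 n) Set.univ MeasurableSet.univ
    have h2 : (T n).filter (fun N => X N ∈ (Set.univ : Set (ι → Bool))) = T n :=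
      Finset.filter_true_of_mem fun N _ => Set.mem_univ _
    rw [h2, hμ1, measureReal_def] at h1
    rcases ENNReal.toReal_eq_one_iff _ |>.1 h1 with h3
    exact h3
  obtain ⟨Q, hQ⟩ : ∃ Q : ℕ → ProbabilityMeasure (ι → Bool), ∀ n,
      (Q n : Measure (ι → Bool)) = ∑ N ∈ T n, ENNReal.ofReal (μ n N) • Measure.dirac (X N) :=
    ⟨fun n => ⟨_, hPn n⟩, fun n => rfl⟩
  obtain ⟨P, -, hP⟩ := isCompact_univ.ultrafilter_le_nhds ((hyperfilter ℕ).map Q) (by simp)
  have hlim : Tendsto Q (hyperfilter ℕ) (nhds P) := hP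
  have hmet : TopologicalSpace.MetrizableSpace (ι → Bool) :=
    TopologicalSpace.metrizableSpace_of_t3_secondCountable _
  have key : ∀ C : Set (ι → Bool), IsClopen C →
      Tendsto (fun n => ∑ N ∈ (T n).filter (fun N => X N ∈ C), μ n N) (hyperfilter ℕ)
        (nhds ((P : Measure (ι → Bool)).real C)) := by
    intro C hC
    have h1 := ProbabilityMeasure.tendsto_measure_of_null_frontier_of_tendsto' hlim (E := C)
      (by rw [hC.frontier_eq, measure_empty])
    have h2 := (ENNReal.tendsto_toReal (measure_ne_top (P : Measure (ι → Bool)) C)).comp h1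
    refine h2.congr fun n => ?_
    have h3 := lm_real X (T n) (μ n) (hμ0 n) C hC.1.measurableSet
    rw [measureReal_def, ← hQ] at h3
    exact h3
  have hev : ∀ n₀ : ℕ, ∀ᶠ n in (hyperfilter ℕ : Filter ℕ), n₀ ≤ n := fun n₀ =>
    Nat.hyperfilter_le_atTop (eventually_ge_atTop n₀)
  refine ⟨P, inferInstance, fun C hC δ n₀ h => ?_, ?_⟩
  · exact ge_of_tendsto (key C hC) ((hev n₀).mono fun n hn => h n hn)
  · have hcl : ∀ F F' : Finset ι, IsClopen {ω : ι → Bool | ∀ q ∈ F, (ω q = true ↔ q ∈ F')} := by
      intro F F'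
      have h1 : {ω : ι → Bool | ∀ q ∈ F, (ω q = true ↔ q ∈ F')} =
          ⋂ q ∈ F, (fun ω : ι → Bool => ω q) ⁻¹' {c | c = true ↔ q ∈ F'} := by
        ext ω
        simp
      rw [h1]
      exact isClopen_biInter_finset fun q _ => (isClopen_discrete _).preimage (continuous_apply q)
    have h0 : ∀ C : Set (ι → Bool), IsClopen C → {N : ℕ | X N ∈ C}.Finite →
        (P : Measure (ι → Bool)) C = 0 := by
      intro C hC hfin
      obtain ⟨n₀, hn₀⟩ := hfin.bddAbove
      have h1 := key C hC
      have h3 : (P : Measure (ι → Bool)).real C = 0 := by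
        refine tendsto_nhds_unique (h1.congr' ((hev n₀).mono fun n hn => ?_)) tendsto_const_nhds
        refine Finset.sum_eq_zero fun N hN => ?_
        rw [Finset.mem_filter] at hN
        have h3 := hT n N hN.1
        have h4 := hn₀ hN.2
        omega
      rw [measureReal_def, ENNReal.toReal_eq_zero_iff] at h3
      exact h3.resolve_right (measure_ne_top _ _)
    have h1 : ∀ᵐ ω ∂(P : Measure (ι → Bool)), ∀ F F' : Finset ι,
        {N : ℕ | X N ∈ {ω : ι → Bool | ∀ q ∈ F, (ω q = true ↔ q ∈ F')}}.Finite →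
        ω ∉ {ω : ι → Bool | ∀ q ∈ F, (ω q = true ↔ q ∈ F')} := by
      rw [ae_all_iff]
      intro F
      rw [ae_all_iff]
      intro F'
      by_cases hfin : {N : ℕ | X N ∈ {ω : ι → Bool | ∀ q ∈ F, (ω q = true ↔ q ∈ F')}}.Finite
      · have h2 := measure_eq_zero_iff_ae_notMem.1 (h0 _ (hcl F F') hfin)
        exact h2.mono fun ω hω _ => hω
      · exact Eventually.of_forall fun ω hω => absurd hω hfin
    refine h1.mono fun ω hω F => ?_
    intro hfin
    refine hω F (F.filter fun q => ω q = true) (hfin.subset ?_) ?_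
    · intro N hN q hq
      have h2 := hN q hq
      rw [Finset.mem_filter] at h2
      by_cases h3 : ω q = true
      · rw [h3]
        exact h2.2 ⟨hq, h3⟩
      · rw [Bool.not_eq_true] at h3
        rw [h3, ← Bool.not_eq_true]
        intro h4
        have h5 := (h2.1 h4).2
        rw [h3] at h5
        exact Bool.false_ne_true h5
    · intro q hq
      rw [Finset.mem_filter]
      exact ⟨fun h => ⟨hq, h⟩, fun h => h.2⟩

end Pool.Agent.H92.II
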