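import Pool.Agent.H92.II.Def

/-!
# [H92 II SQA] arithmetic of the sequence

PROOF. `sq_le`: `P n ∣ P n'` for `n ≤ n'`, induction on `n' - n`. `sq_adm`: `p ∣ Q`: `y n ≡ R n ≡ 0` modulo `p` (`p ∣ Q ∣ Q ^ E`, `E ≥ 1`), so `a = 1`. `p ∤ Q`: for `n ≥ p - 3` all `y n` are congruent to `y (p - 3)`
modulo `p` (`sq_le`, `prm`); the classes of `y 0, .., y (p - 3)` are at most `p - 2` (for `p = 2, 3`: `p - 3 = 0` in `ℕ`, one class) `< p`, so there is a class `-a` which is missed (`Finset` counting in `ZMod p`: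
the image of `range (p - 3 + 1)` has less than `p` elements).
`sq_ratio`: `m = y b - y a > 0`. `m ≡ Q ^ k [MOD Q ^ (k + 1)]`, so `m = Q ^ k * m'`, `m' ≡ 1 [MOD Q]`, `m'` is prime to `Q`. `d = y n - y a ≡ c Q ^ k [MOD Q ^ (k + 1)]`, so `d = Q ^ k * d'`, `d' ≡ c [MOD Q]`.
`m ∣ P b * Q ^ e` (`dif`), so `m' ∣ P b`, and `y n ≡ y b [MOD P b]` (`sq_le`), `y n - y a = (y n - y b) + m`, so `m' ∣ d`, `m' ∣ d'`, `d' = t m'`, `t ≡ t m' = d' ≡ c [MOD Q]`.
-/

set_option autoImplicit false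

namespace Pool.Agent.H92.II

variable {Q E : ℕ} {R y P : ℕ → ℕ}

private theorem P_dvd (h : Sq Q E R y P) {n n' : ℕ} (hn : n ≤ n') : P n ∣ P n' := by
  induction n', hn using Nat.le_induction with
  | base => exact dvd_refl _
  | succ m _ ih => exact ih.trans (h.dvd m)

theorem sq_le (h : Sq Q E R y P) {n n' : ℕ} (hn : n ≤ n') : y n' ≡ y n [MOD P n] := by
  induction n', hn using Nat.le_induction with
  | base => rfl
  | succ m hm ih => exact ((h.step m).of_dvd (P_dvd h hm)).trans ih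

theorem sq_adm (h : Sq Q E R y P) (hE : 1 ≤ E) (hR : ∀ n, Q ∣ R n) (p : ℕ)
    (hp : p.Prime) : ∃ a : ℕ, ∀ n, ¬ p ∣ a + y n := by
  classical
  by_cases hpQ : p ∣ Q
  · refine ⟨1, fun n hn => ?_⟩
    have h1 : y n ≡ R n [MOD p] := (h.res n).of_dvd (hpQ.trans (dvd_pow_self Q (by omega)))
    have h2 : p ∣ y n := (Nat.ModEq.dvd_iff h1 dvd_rfl).2 (hpQ.trans (hR n))
    have h3 : p ∣ 1 := (Nat.dvd_add_iff_left h2).2 hn
    exact hp.one_lt.ne' (Nat.dvd_one.1 h3)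
  · have hp2 := hp.two_le
    obtain ⟨T, hT⟩ : ∃ T : Finset ℕ, T = (Finset.range (p - 3 + 1)).image fun n => y n % p :=
      ⟨_, rfl⟩
    have hcard : T.card < p := by
      have h1 : T.card ≤ p - 3 + 1 := by
        rw [hT]
        exact Finset.card_image_le.trans (by rw [Finset.card_range])
      omega
    have hmem : ∀ n, y n % p ∈ T := by
      intro n
      rw [hT, Finset.mem_image]
      by_cases hn : n < p - 3 + 1
      · exact ⟨n, Finset.mem_range.2 hn, rfl⟩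
      · refine ⟨p - 3, Finset.mem_range.2 (by omega), ?_⟩
        have h1 : p ∣ P (p - 3) := h.prm (p - 3) p hp (by omega) hpQ
        have h2 : y n ≡ y (p - 3) [MOD p] := (sq_le h (by omega)).of_dvd h1
        exact h2.symm
    obtain ⟨r, hr, hrT⟩ : ∃ r ∈ Finset.range p, r ∉ T := by
      by_contra hcon
      push Not at hcon
      have h1 := Finset.card_le_card (show Finset.range p ⊆ T from hcon)
      rw [Finset.card_range] at h1
      omega
    rw [Finset.mem_range] at hr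
    refine ⟨p - r, fun n hn => hrT ?_⟩
    obtain ⟨k, hk⟩ := hn
    have h1 : y n + p = p * k + r := by omega
    have h2 : y n % p = r := by
      have h3 := congrArg (· % p) h1
      simp only [Nat.add_mod_right] at h3
      rw [Nat.mul_add_mod, Nat.mod_eq_of_lt hr] at h3
      exact h3
    rw [← h2]
    exact hmem n

theorem sq_ratio (h : Sq Q E R y P) (hQ : 2 ≤ Q) {a b n k ρ c : ℕ} (hab : a < b) (hbn : b < n)
    (ha : y a ≡ ρ [MOD Q ^ (k + 1)]) (hb : y b ≡ ρ + Q ^ k [MOD Q ^ (k + 1)])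
    (hn : y n ≡ ρ + c * Q ^ k [MOD Q ^ (k + 1)]) :
    ∃ t : ℕ, y n = y a + t * (y b - y a) ∧ t ≡ c [MOD Q] := by
  have hy1 : y a < y b := h.mono hab
  have hy2 : y b < y n := h.mono hbn
  -- the difference `m`
  obtain ⟨s, hs⟩ : ((Q : ℤ) ^ (k + 1)) ∣ ((y b : ℤ) - y a) - (Q : ℤ) ^ k := by
    have h1 := (Nat.modEq_iff_dvd.1 ha)
    have h2 := (Nat.modEq_iff_dvd.1 hb)
    push_cast at h1 h2
    have h3 := dvd_sub h1 h2
    refine (congrArg (fun z : ℤ => ((Q : ℤ) ^ (k + 1)) ∣ z) ?_).mp h3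
    ring
  obtain ⟨s', hs'⟩ : ((Q : ℤ) ^ (k + 1)) ∣ ((y n : ℤ) - y a) - c * (Q : ℤ) ^ k := by
    have h1 := (Nat.modEq_iff_dvd.1 ha)
    have h2 := (Nat.modEq_iff_dvd.1 hn)
    push_cast at h1 h2
    have h3 := dvd_sub h1 h2
    refine (congrArg (fun z : ℤ => ((Q : ℤ) ^ (k + 1)) ∣ z) ?_).mp h3
    ring
  have hm : (y b : ℤ) - y a = (Q : ℤ) ^ k * (1 + Q * s) := by
    have h1 : (y b : ℤ) - y a = (Q : ℤ) ^ k + (Q : ℤ) ^ (k + 1) * s := by linarith
    rw [h1]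
    ring
  have hd : (y n : ℤ) - y a = (Q : ℤ) ^ k * (c + Q * s') := by
    have h1 : (y n : ℤ) - y a = c * (Q : ℤ) ^ k + (Q : ℤ) ^ (k + 1) * s' := by linarith
    rw [h1]
    ring
  have hcop : IsCoprime (1 + (Q : ℤ) * s) (Q : ℤ) := ⟨1, -s, by ring⟩
  have hQk : ((Q : ℤ) ^ k) ≠ 0 := pow_ne_zero _ (by
    have h1 : Q ≠ 0 := by omega
    exact_mod_cast h1)
  have hPb : (1 + (Q : ℤ) * s) ∣ (P b : ℤ) := by
    obtain ⟨e, he⟩ := h.dif b a b hab le_rfl
    have h1 : ((y b - y a : ℕ) : ℤ) ∣ ((P b * Q ^ e : ℕ) : ℤ) := Int.natCast_dvd_natCast.2 he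
    rw [Nat.cast_sub hy1.le, hm] at h1
    push_cast at h1
    have h2 : (1 + (Q : ℤ) * s) ∣ (P b : ℤ) * (Q : ℤ) ^ e := (dvd_mul_left _ _).trans h1
    exact (hcop.pow_right (n := e)).dvd_of_dvd_mul_right h2
  have hnb : (P b : ℤ) ∣ (y n : ℤ) - y b := Nat.modEq_iff_dvd.1 (sq_le h hbn.le).symm
  have hd2 : (1 + (Q : ℤ) * s) ∣ (Q : ℤ) ^ k * (c + Q * s') := by
    rw [← hd]
    have h1 : (y n : ℤ) - y a = ((y n : ℤ) - y b) + ((y b : ℤ) - y a) := by ring
    rw [h1]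
    refine dvd_add (hPb.trans hnb) ?_
    rw [hm]
    exact dvd_mul_left _ _
  obtain ⟨t, ht⟩ := (hcop.pow_right (n := k)).dvd_of_dvd_mul_left hd2
  have hdt : (y n : ℤ) - y a = t * ((y b : ℤ) - y a) := by
    rw [hd, hm, ht]
    ring
  have hmpos : (0 : ℤ) < (y b : ℤ) - y a := by
    have h1 : (y a : ℤ) < y b := by exact_mod_cast hy1
    linarith
  have hdpos : (0 : ℤ) < (y n : ℤ) - y a := by
    have h1 : (y b : ℤ) < y n := by exact_mod_cast hy2
    linarith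
  have htpos : 0 < t := by
    rw [hdt] at hdpos
    exact (mul_pos_iff_of_pos_right hmpos).1 hdpos
  obtain ⟨u, rfl⟩ := Int.eq_ofNat_of_zero_le htpos.le
  refine ⟨u, ?_, ?_⟩
  · have h1 : (y n : ℤ) = y a + u * ((y b - y a : ℕ) : ℤ) := by
      rw [Nat.cast_sub hy1.le]
      linarith
    exact_mod_cast h1
  · refine Nat.modEq_iff_dvd.2 ⟨(u : ℤ) * s - s', ?_⟩
    have h1 : (c : ℤ) + Q * s' = (1 + Q * s) * u := ht
    linarith

end Pool.Agent.H92.II
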