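import Mathlib

/-!
# [H92 II TR] the tree lemma

Nodes are lists over `T × ℕ`, the child `(c, j)` of `u` is `(c, j) :: u`, leaves have length `D`. `A i l`: the leaf `l` is hit in colour `i`.
PROOF. `B i u := ⋃ (w) (_ : (w ++ u).length = D), A i (w ++ u)` (measurable, countable union), `L i u c := ⋂ k, ⋃ j ≥ k, B i ((c, j) :: u)`, `L i u c ⊆ B i u` (`w ++ (c, j) :: u = (w ++ [(c, j)]) ++ u`).
Suppose the conclusion fails. Then for almost every `ω`, all `i` and all `u` of length `< D` there is `c` with `ω ∉ L i u c`, so `∑ c, P.real (L i u c) ≤ (q - 1) P.real (B i u)` (`q = card T`; integrate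
`∑ c, indicator (L i u c) ≤ (q - 1) indicator (B i u)` almost everywhere, or: `∑ c, P.real (L i u c) = ∑ c, P.real (B i u) - ∑ c, P.real (B i u \ L i u c)` and the sets `B i u \ L i u c`
cover `B i u` up to a null set). CLAIM: for `u` with `u.length + d = D`: `q ^ d * δ ≤ (q - 1) ^ d * ∑ i, P.real (B i u)`. `d = 0`: `hδ` (`A i u ⊆ B i u`). `d + 1`: for fixed `c` and `k`
`q ^ d * δ ≤ (q - 1) ^ d * ∑ i, P.real (B i ((c, k) :: u)) ≤ (q - 1) ^ d * ∑ i, P.real (⋃ j ≥ k, B i ((c, j) :: u))`; `k → ∞` (`tendsto_measure_iInter_atTop`, antitone, or its version for `Measure.real`):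
`q ^ d * δ ≤ (q - 1) ^ d * ∑ i, P.real (L i u c)`; sum over `c`. For `u = []`, `d = D`: `q ^ D * δ ≤ (q - 1) ^ D * r` (`P.real ≤ 1`), contradiction to `hbig`.
-/

set_option autoImplicit false

open MeasureTheory Filter

namespace Pool.Agent.H92.II

/-- the leaves below `u` which are hit -/
private def tB {Ω T : Type} (D : ℕ) (A : List (T × ℕ) → Set Ω) (u : List (T × ℕ)) : Set Ω :=
  {ω | ∃ w : List (T × ℕ), (w ++ u).length = D ∧ ω ∈ A (w ++ u)}

/-- some child `(c, j)`, `j ≥ k`, of `u` is hit -/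
private def tU {Ω T : Type} (D : ℕ) (A : List (T × ℕ) → Set Ω) (u : List (T × ℕ)) (c : T) (k : ℕ) :
    Set Ω :=
  {ω | ∃ j : ℕ, k ≤ j ∧ ω ∈ tB D A ((c, j) :: u)}

private theorem tB_meas {Ω T : Type} [MeasurableSpace Ω] [Fintype T] (D : ℕ)
    (A : List (T × ℕ) → Set Ω) (hA : ∀ l, MeasurableSet (A l)) (u : List (T × ℕ)) :
    MeasurableSet (tB D A u) := by
  have h : tB D A u = ⋃ (w : List (T × ℕ)), ⋃ (_ : (w ++ u).length = D), A (w ++ u) := by
    ext ω
    simp only [tB, Set.mem_ofPred_eq, Set.mem_iUnion, exists_prop]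
  rw [h]
  exact MeasurableSet.iUnion fun w => MeasurableSet.iUnion fun _ => hA _

private theorem tU_meas {Ω T : Type} [MeasurableSpace Ω] [Fintype T] (D : ℕ)
    (A : List (T × ℕ) → Set Ω) (hA : ∀ l, MeasurableSet (A l)) (u : List (T × ℕ)) (c : T) (k : ℕ) :
    MeasurableSet (tU D A u c k) := by
  have h : tU D A u c k = ⋃ (j : ℕ), ⋃ (_ : k ≤ j), tB D A ((c, j) :: u) := by
    ext ω
    simp only [tU, Set.mem_ofPred_eq, Set.mem_iUnion, exists_prop]
  rw [h]
  exact MeasurableSet.iUnion fun j => MeasurableSet.iUnion fun _ => tB_meas D A hA _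

private theorem tU_anti {Ω T : Type} (D : ℕ) (A : List (T × ℕ) → Set Ω) (u : List (T × ℕ)) (c : T) :
    Antitone (tU D A u c) := by
  intro k k' hk ω hω
  obtain ⟨j, hj, h⟩ := hω
  exact ⟨j, hk.trans hj, h⟩

private theorem tU_sub {Ω T : Type} (D : ℕ) (A : List (T × ℕ) → Set Ω) (u : List (T × ℕ)) (c : T)
    (k : ℕ) : tU D A u c k ⊆ tB D A u := by
  rintro ω ⟨j, -, w, hw, h⟩
  refine ⟨w ++ [(c, j)], ?_, ?_⟩
  · rw [List.append_assoc]
    exact hw
  · rw [List.append_assoc]
    exact h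

private theorem m_sum {Ω T : Type} [MeasurableSpace Ω] [Fintype T] (P : Measure Ω)
    [IsProbabilityMeasure P] (B : Set Ω) (L : T → Set Ω) (hL : ∀ c, MeasurableSet (L c))
    (hsub : ∀ c, L c ⊆ B) (h : ∀ᵐ ω ∂P, ∃ c, ω ∉ L c) :
    ∑ c, P.real (L c) ≤ ((Fintype.card T : ℝ) - 1) * P.real B := by
  have h1 : ∀ c, P.real (L c) = P.real B - P.real (B \ L c) := by
    intro c
    have h2 := measureReal_inter_add_sdiff (μ := P) (s := B) (hL c)
    rw [Set.inter_eq_self_of_subset_right (hsub c)] at h2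
    linarith
  have h3 : P.real B ≤ P.real (⋃ c, B \ L c) := by
    refine ENNReal.toReal_mono (measure_ne_top _ _) (measure_mono_ae ?_)
    filter_upwards [h] with ω hω hB
    obtain ⟨c, hc⟩ := hω
    exact Set.mem_iUnion.2 ⟨c, hB, hc⟩
  have h4 : P.real (⋃ c, B \ L c) ≤ ∑ c, P.real (B \ L c) := measureReal_iUnion_fintype_le _
  have h5 : ∑ c, P.real (L c) = Fintype.card T * P.real B - ∑ c, P.real (B \ L c) := by
    rw [Finset.sum_congr rfl fun c _ => h1 c, Finset.sum_sub_distrib, Finset.sum_const,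
      Finset.card_univ, nsmul_eq_mul]
  rw [h5]
  linarith

private theorem m_lim {Ω : Type} [MeasurableSpace Ω] (P : Measure Ω) [IsProbabilityMeasure P]
    (U : ℕ → Set Ω) (hU : ∀ k, MeasurableSet (U k)) (ha : Antitone U) :
    Tendsto (fun k => P.real (U k)) atTop (nhds (P.real (⋂ k, U k))) :=
  (ENNReal.tendsto_toReal (measure_ne_top _ _)).comp
    (tendsto_measure_iInter_atTop (fun i => (hU i).nullMeasurableSet) ha ⟨0, measure_ne_top _ _⟩)

theorem tree {Ω T : Type} [MeasurableSpace Ω] [Fintype T] [Nonempty T] (P : Measure Ω)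
    [IsProbabilityMeasure P] (r D : ℕ) (A : Fin r → List (T × ℕ) → Set Ω)
    (hA : ∀ i l, MeasurableSet (A i l)) (δ : ℝ)
    (hδ : ∀ l : List (T × ℕ), l.length = D → δ ≤ ∑ i, P.real (A i l))
    (hbig : (r : ℝ) * ((Fintype.card T : ℝ) - 1) ^ D < (Fintype.card T : ℝ) ^ D * δ)
    (S : Set Ω) (hS : ∀ᵐ ω ∂P, ω ∈ S) :
    ∃ ω ∈ S, ∃ (i : Fin r) (u : List (T × ℕ)), u.length < D ∧ ∀ (c : T) (j₀ : ℕ), ∃ j ≥ j₀,
      ∃ w : List (T × ℕ), (w ++ (c, j) :: u).length = D ∧ ω ∈ A i (w ++ (c, j) :: u) := by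
  by_contra hcon
  have hcard : (1 : ℝ) ≤ (Fintype.card T : ℝ) := by
    exact_mod_cast Fintype.card_pos
  -- the failure
  have hfail : ∀ (i : Fin r) (u : List (T × ℕ)), u.length < D →
      ∀ᵐ ω ∂P, ∃ c, ω ∉ ⋂ k, tU D (A i) u c k := by
    intro i u hu
    filter_upwards [hS] with ω hω
    by_contra hno
    apply hcon
    refine ⟨ω, hω, i, u, hu, fun c j₀ => ?_⟩
    have h1 : ω ∈ ⋂ k, tU D (A i) u c k := by
      by_contra h2
      exact hno ⟨c, h2⟩
    obtain ⟨j, hj, w, hw, h3⟩ := Set.mem_iInter.1 h1 j₀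
    exact ⟨j, hj, w, hw, h3⟩
  have hclaim : ∀ (d : ℕ) (u : List (T × ℕ)), u.length + d = D →
      (Fintype.card T : ℝ) ^ d * δ ≤
        ((Fintype.card T : ℝ) - 1) ^ d * ∑ i, P.real (tB D (A i) u) := by
    intro d
    induction d with
    | zero =>
      intro u hu
      rw [pow_zero, pow_zero, one_mul, one_mul]
      refine (hδ u (by omega)).trans (Finset.sum_le_sum fun i _ => ?_)
      refine measureReal_mono ?_
      intro ω hω
      exact ⟨[], by simpa using hu, by simpa using hω⟩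
    | succ d ih =>
      intro u hu
      have h1 : ∀ c : T, (Fintype.card T : ℝ) ^ d * δ ≤
          ((Fintype.card T : ℝ) - 1) ^ d * ∑ i, P.real (⋂ k, tU D (A i) u c k) := by
        intro c
        have h2 : ∀ k : ℕ, (Fintype.card T : ℝ) ^ d * δ ≤
            ((Fintype.card T : ℝ) - 1) ^ d * ∑ i, P.real (tU D (A i) u c k) := by
          intro k
          refine (ih ((c, k) :: u) (by rw [List.length_cons]; omega)).trans ?_
          refine mul_le_mul_of_nonneg_left ?_ (pow_nonneg (by linarith) _)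
          refine Finset.sum_le_sum fun i _ => measureReal_mono ?_
          intro ω hω
          exact ⟨k, le_rfl, hω⟩
        have h3 : Tendsto (fun k : ℕ => ((Fintype.card T : ℝ) - 1) ^ d *
            ∑ i, P.real (tU D (A i) u c k)) atTop
            (nhds (((Fintype.card T : ℝ) - 1) ^ d * ∑ i, P.real (⋂ k, tU D (A i) u c k))) := by
          refine Tendsto.const_mul _ (tendsto_finsetSum _ fun i _ => ?_)
          exact m_lim P _ (fun k => tU_meas D (A i) (hA i) u c k) (tU_anti D (A i) u c)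
        exact ge_of_tendsto' h3 h2
      have h4 : ∑ _c : T, (Fintype.card T : ℝ) ^ d * δ ≤
          ∑ c : T, ((Fintype.card T : ℝ) - 1) ^ d * ∑ i, P.real (⋂ k, tU D (A i) u c k) :=
        Finset.sum_le_sum fun c _ => h1 c
      rw [Finset.sum_const, Finset.card_univ, nsmul_eq_mul, ← Finset.mul_sum,
        Finset.sum_comm] at h4
      have h5 : ∀ i : Fin r, ∑ c : T, P.real (⋂ k, tU D (A i) u c k) ≤
          ((Fintype.card T : ℝ) - 1) * P.real (tB D (A i) u) := by
        intro i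
        refine m_sum P _ _ (fun c => MeasurableSet.iInter fun k => tU_meas D (A i) (hA i) u c k)
          (fun c => (Set.iInter_subset _ 0).trans (tU_sub D (A i) u c 0)) (hfail i u (by omega))
      have h6 : ∑ i : Fin r, ∑ c : T, P.real (⋂ k, tU D (A i) u c k) ≤
          ((Fintype.card T : ℝ) - 1) * ∑ i, P.real (tB D (A i) u) := by
        rw [Finset.mul_sum]
        exact Finset.sum_le_sum fun i _ => h5 i
      have h7 := mul_le_mul_of_nonneg_left h6
        (pow_nonneg (by linarith : (0 : ℝ) ≤ (Fintype.card T : ℝ) - 1) d)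
      rw [pow_succ, pow_succ]
      linarith
  have h8 := hclaim D [] (by simp)
  have h9 : ∑ i : Fin r, P.real (tB D (A i) []) ≤ (r : ℝ) := by
    calc ∑ i : Fin r, P.real (tB D (A i) []) ≤ ∑ _i : Fin r, (1 : ℝ) :=
          Finset.sum_le_sum fun i _ => measureReal_le_one
      _ = (r : ℝ) := by simp
  have h10 := mul_le_mul_of_nonneg_left h9
    (pow_nonneg (by linarith : (0 : ℝ) ≤ (Fintype.card T : ℝ) - 1) D)
  linarith

end Pool.Agent.H92.II
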