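import Pool.Agent.H92.II.Wld
import Pool.Agent.H92.II.Lm
import Pool.Agent.H92.II.Tr
import Pool.Agent.H92.II.Sqa
import Pool.Agent.H92.II.Ad

/-!
# [H92 II OM] one limit pattern with a full node

The measures of `world` on the patterns of the blocks `Vb y j`, their limit `lim_meas`, and the tree lemma give one limit pattern `Ω` (the
points `a` such that `N + a` is prime of colour `i` along the pattern) and one node `u` such that for every digit `c` there are arbitrarily
late points of `Ω` under the children `(c, ·)` of `u`.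
-/

set_option autoImplicit false

open MeasureTheory

namespace Pool.Agent.H92.II

private theorem om_clopen {r : ℕ} (y : ℕ → ℕ) (i : Fin r) (j : ℕ) : IsClopen (Hit y i j) := by
  have h : Hit y i j = ⋃ a ∈ Vb y j, {ω : ℕ × Fin r → Bool | ω (a, i) = true} := by
    ext ω
    simp [Hit]
  rw [h]
  refine Set.Finite.isClopen_biUnion (Finset.finite_toSet _) ?_
  intro a _
  have h1 : {ω : ℕ × Fin r → Bool | ω (a, i) = true} =
      (fun ω : ℕ × Fin r → Bool => ω (a, i)) ⁻¹' {true} := rfl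
  rw [h1]
  exact (isClopen_discrete _).preimage (continuous_apply _)

open Classical in
theorem om {r : ℕ} (χ : ℕ → Fin r) (Q D : ℕ) (hQ : 2 ≤ Q)
    (hD : (r : ℝ) * ((Q : ℝ) - 1) ^ D < (Q : ℝ) ^ D * (1 / 10 ^ 23)) (R y P : ℕ → ℕ)
    (h : Sq Q (D + 1) R y P)
    (hR : ∀ n j, Sb j ≤ n → n < Sb (j + 1) → R n = Q * Rn Q (ad Q j)) :
    ∃ (Ω : Set ℕ) (i : Fin r) (u : List (Fin Q × ℕ)), u.length < D ∧
      (∀ F : Finset ℕ, (F : Set ℕ) ⊆ Ω → {N : ℕ | ∀ a ∈ F, Pri χ i (N + a)}.Infinite) ∧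
      ∀ (c : Fin Q) (b : ℕ), ∃ n, b ≤ n ∧ y n ∈ Ω ∧
        y n ≡ Q * (Rn Q u + c * Q ^ u.length) [MOD Q ^ (u.length + 2)] := by
  have hmono := h.mono
  have hQR : ∀ n, Q ∣ R n := by
    intro n
    obtain ⟨j, h1, h2⟩ := bk_ex n
    rw [hR n j h1 h2]
    exact Dvd.intro _ rfl
  have hadm : ∀ p : ℕ, p.Prime → ∃ a : ℕ, ∀ j, ∀ h ∈ Vb y j, ¬ p ∣ a + h := by
    intro p hp
    obtain ⟨a, ha⟩ := sq_adm h (by omega) hQR p hp
    refine ⟨a, ?_⟩
    intro j x hx
    obtain ⟨n, rfl, _⟩ := vb_late hx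
    exact ha n
  choose T μ hT hμ0 hμ1 hE using world (Vb y) (vb_card hmono) (vb_dis hmono) hadm
  obtain ⟨P', hP', hcl, hae⟩ := lim_meas (ι := ℕ × Fin r) (fun N q => decide (Pri χ q.2 (N + q.1))) T μ hT hμ0 hμ1
  have hne : Nonempty (Fin Q) := ⟨⟨0, by omega⟩⟩
  have hcard : Fintype.card (Fin Q) = Q := Fintype.card_fin Q
  obtain ⟨ω, hω, i, u, hu, hfull⟩ := tree (T := Fin Q) P' r D
    (fun i l => Hit y i (Encodable.encode l)) (fun i l => (om_clopen y i (Encodable.encode l)).isOpen.measurableSet)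
    (1 / 10 ^ 23) (by
      intro l _
      have h1 : IsClopen (⋃ i : Fin r, Hit y i (Encodable.encode l)) :=
        isClopen_iUnion_of_finite (fun i => om_clopen y i _)
      have h2 := hcl _ h1 (1 / 10 ^ 23) (Encodable.encode l) (by
        intro n hn
        refine (hE n (Encodable.encode l) hn).trans (le_of_eq ?_)
        refine Finset.sum_congr (Finset.filter_congr ?_) (fun _ _ => rfl)
        intro N _
        constructor
        · rintro ⟨a, ha, hp⟩
          refine Set.mem_iUnion.2 ⟨χ (N + a), a, ha, ?_⟩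
          exact decide_eq_true (⟨hp, rfl⟩ : Pri χ (χ (N + a)) (N + a))
        · intro hN
          obtain ⟨i, a, ha, hi⟩ := Set.mem_iUnion.1 hN
          have h3 : Pri χ i (N + a) := of_decide_eq_true hi
          exact ⟨a, ha, h3.1⟩)
      refine h2.trans ?_
      exact measureReal_iUnion_fintype_le _) (by
      rw [hcard]
      exact hD) {ω | ∀ F : Finset (ℕ × Fin r), {N : ℕ | ∀ q ∈ F, decide (Pri χ q.2 (N + q.1)) = ω q}.Infinite}
      hae
  refine ⟨{a | ω (a, i) = true}, i, u, hu, ?_, ?_⟩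
  · intro F hF
    refine (hω (F.image (fun a => (a, i)))).mono ?_
    intro N hN a ha
    have h1 : decide (Pri χ i (N + a)) = ω (a, i) := hN (a, i) (Finset.mem_image_of_mem _ ha)
    rw [show ω (a, i) = true from hF ha] at h1
    exact of_decide_eq_true h1
  · intro c b
    obtain ⟨j₀, hj₀⟩ := late Q b
    obtain ⟨j, hj, w, hw, hA⟩ := hfull c j₀
    have hb := hj₀ w u c j hj
    obtain ⟨a, ha, hωa⟩ := hA
    obtain ⟨n, rfl, h1, h2, h3⟩ := vb_late ha
    refine ⟨n, hb.trans h3, hωa, ?_⟩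
    have h4 := h.res n
    rw [hR n _ h1 h2, ad_encode] at h4
    have h5 : u.length + 2 ≤ D + 1 := by omega
    have h6 := h4.of_dvd (pow_dvd_pow Q h5)
    refine h6.trans ?_
    have h7 := (rn_app Q w u c j).mul_left' Q
    have h8 : Q * Q ^ (u.length + 1) = Q ^ (u.length + 2) := by ring
    rw [h8] at h7
    exact h7

end Pool.Agent.H92.II
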