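import Pool.Agent.H92.II.Def

/-!
# [H92 II RK] ranks

PROOF. `GA α := {F | good F ∧ ∀ β < α, ∀ c, Nx Q (GA β) F c ∉ I}` by recursion on the ordinal `α` (`WellFounded.fix`, `Ordinal.{0}`), antitone in `α`. `G := ⋂ α, GA α`. `Fam`: let `F ∈ G` and suppose
`Nx Q G F c ∈ I`. For every `t` with `insert t F ∉ G` choose `α t` with `insert t F ∉ GA (α t)`; `α := sup` of the countably many `α t` (`Ordinal.iSup`, `bddAbove_range`; or `Ordinal.lsub`); then `Nx Q (GA α) F c = Nx Q G F c ∈ I`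
contradicts `F ∈ GA (α + 1)`. `rk F :=` the least `α` with `F ∉ GA α` (`0` if `F ∈ G`). If `F ∉ G` is good, `α = rk F`, there are `β < α` and `c F` with `Z F := Nx Q (GA β) F (c F) ∈ I`;
for `t ≡ c F`, `t ∉ F`, `t ∉ Z F`: `insert t F ∉ GA β`, so `insert t F ∉ G` and `rk (insert t F) ≤ β < α`.
In the other cases `Z F := ∅`.
-/

set_option autoImplicit false

namespace Pool.Agent.H92.II

/-- the family of rank at least `α` -/
private noncomputable def GA (I : Set (Set ℕ)) (Q : ℕ) (good : Finset ℕ → Prop) :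
    Ordinal.{0} → Set (Finset ℕ) :=
  WellFounded.fix (Ordinal.lt_wf) (fun α ih =>
    {F | good F ∧ ∀ β : Ordinal.{0}, ∀ h : β < α, ∀ c : ℕ, Nx Q (ih β h) F c ∉ I})

private theorem GA_mem (I : Set (Set ℕ)) (Q : ℕ) (good : Finset ℕ → Prop) (α : Ordinal.{0})
    (F : Finset ℕ) :
    F ∈ GA I Q good α ↔ good F ∧ ∀ β < α, ∀ c : ℕ, Nx Q (GA I Q good β) F c ∉ I := by
  unfold GA
  rw [WellFounded.fix_eq]
  rfl

private theorem GA_anti (I : Set (Set ℕ)) (Q : ℕ) (good : Finset ℕ → Prop) {α β : Ordinal.{0}}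
    (h : α ≤ β) : GA I Q good β ⊆ GA I Q good α := by
  intro F hF
  rw [GA_mem] at hF ⊢
  exact ⟨hF.1, fun γ hγ => hF.2 γ (lt_of_lt_of_le hγ h)⟩

theorem rank {I : Set (Set ℕ)} (hI : Small I) (Q : ℕ) (good : Finset ℕ → Prop) :
    ∃ (G : Set (Finset ℕ)) (rk : Finset ℕ → Ordinal.{0}) (c : Finset ℕ → ℕ) (Z : Finset ℕ → Set ℕ),
      Fam I Q good G ∧ (∀ F, Z F ∈ I) ∧
      ∀ F, F ∉ G → good F → ∀ t, t ≡ c F [MOD Q] → t ∉ F → t ∉ Z F →
        insert t F ∉ G ∧ rk (insert t F) < rk F := by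
  classical
  set G : Set (Finset ℕ) := {F | ∀ α : Ordinal.{0}, F ∈ GA I Q good α} with hG
  set rk : Finset ℕ → Ordinal.{0} := fun F => sInf {α | F ∉ GA I Q good α} with hrk
  have key : ∀ F : Finset ℕ, ∃ (c : ℕ) (Z : Set ℕ), Z ∈ I ∧
      (F ∉ G → good F → ∀ t, t ≡ c [MOD Q] → t ∉ F → t ∉ Z →
        insert t F ∉ G ∧ rk (insert t F) < rk F) := by
    intro F
    by_cases hF : F ∉ G ∧ good F
    · obtain ⟨hF1, hF2⟩ := hF
      have hne : {α : Ordinal.{0} | F ∉ GA I Q good α}.Nonempty := by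
        simp only [hG, Set.mem_setOf_eq, not_forall] at hF1
        obtain ⟨α, hα⟩ := hF1
        exact ⟨α, hα⟩
      have hα : F ∉ GA I Q good (rk F) := csInf_mem hne
      rw [GA_mem] at hα
      push Not at hα
      obtain ⟨β, hβ, c, hc⟩ := hα hF2
      refine ⟨c, Nx Q (GA I Q good β) F c, hc, ?_⟩
      intro _ _ t ht htF htZ
      have hnot : insert t F ∉ GA I Q good β := fun h => htZ ⟨ht, htF, h⟩
      refine ⟨fun h => hnot (h β), lt_of_le_of_lt ?_ hβ⟩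
      exact csInf_le' hnot
    · refine ⟨0, ∅, hI.fin ∅ Set.finite_empty, ?_⟩
      intro h1 h2
      exact absurd ⟨h1, h2⟩ hF
  choose c Z hZ hcZ using key
  refine ⟨G, rk, c, Z, ?_, hZ, fun F => hcZ F⟩
  intro F hF
  refine ⟨((GA_mem I Q good 0 F).1 (hF 0)).1, ?_⟩
  intro d hd
  have hex : ∀ t : ℕ, ∃ α : Ordinal.{0}, insert t F ∉ G → insert t F ∉ GA I Q good α := by
    intro t
    by_cases h : insert t F ∈ G
    · exact ⟨0, fun h' => absurd h h'⟩
    · have h' := h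
      simp only [hG, Set.mem_setOf_eq, not_forall] at h'
      obtain ⟨α, hα⟩ := h'
      exact ⟨α, fun _ => hα⟩
  choose a ha using hex
  set α : Ordinal.{0} := ⨆ t, a t with hα
  have hle : ∀ t, a t ≤ α := fun t => Ordinal.le_iSup a t
  have h1 := ((GA_mem I Q good (Order.succ α) F).1 (hF _)).2 α (Order.lt_succ α) d
  apply h1
  refine hI.mono _ hd _ ?_
  rintro t ⟨ht1, ht2, ht3⟩
  refine ⟨ht1, ht2, ?_⟩
  by_contra h
  exact ha t h (GA_anti I Q good (hle t) ht3)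

end Pool.Agent.H92.II
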