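import Pool.Agent.H92.II.Sqx
import Pool.Agent.H92.II.Rk
import Pool.Agent.H92.II.Om

/-!
# [H92 II CORE] the theorem

`core`: suppose that the set `MM` of multipliers is small. Take the families `G m i`, the ranks and the small exceptional sets `Z m i F` of
`rank`, and a sequence `y` (`sq_exists`) which avoids `y a + MM` and all the sets `y a + (y b - y a) Z (y b - y a) i F` (`F` finite, with
`y a + f (y b - y a)` in the past of the sequence). `om` gives one limit pattern with a full node; the points of the pattern under that node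
give an infinite descent of the ranks.
-/

set_option autoImplicit false

namespace Pool.Agent.H92.II

/-- the forbidden set for the next point -/
private def badS {r : ℕ} (M : Set ℕ) (Z : ℕ → Fin r → Finset ℕ → Set ℕ) (l : List ℕ) : Set ℕ :=
  (⋃ a ∈ l.toFinset, (fun t => a + t * 1) '' M) ∪
    ⋃ a ∈ l.toFinset, ⋃ b ∈ l.toFinset.filter (fun b => a < b),
      ⋃ F ∈ (Finset.range (l.toFinset.sup id + 1)).powerset, ⋃ i ∈ (Finset.univ : Finset (Fin r)),
        (fun t => a + t * (b - a)) '' Z (b - a) i F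

private theorem badS_mem {I : Set (Set ℕ)} (hI : Small I) {r : ℕ} (M : Set ℕ) (hM : M ∈ I)
    (Z : ℕ → Fin r → Finset ℕ → Set ℕ) (hZ : ∀ m i F, Z m i F ∈ I) (l : List ℕ) :
    badS M Z l ∈ I := by
  unfold badS
  refine hI.union _ (small_biU hI _ _ fun a _ => hI.aff _ hM a 1 one_pos) _ ?_
  refine small_biU hI _ _ fun a _ => small_biU hI _ _ fun b hb => small_biU hI _ _ fun F _ =>
    small_biU hI _ _ fun i _ => hI.aff _ (hZ _ _ _) a (b - a) ?_
  have := (Finset.mem_filter.1 hb).2
  omega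

private theorem exD (r Q : ℕ) (hQ : 2 ≤ Q) : ∃ D : ℕ,
    (r : ℝ) * ((Q : ℝ) - 1) ^ D < (Q : ℝ) ^ D * (1 / 10 ^ 23) := by
  have hQ' : (2 : ℝ) ≤ Q := by exact_mod_cast hQ
  have h0 : (0 : ℝ) < Q := by linarith
  obtain ⟨D, hD⟩ := exists_pow_lt_of_lt_one (x := (1 / 10 ^ 23 : ℝ) / (r + 1)) (y := ((Q : ℝ) - 1) / Q)
    (by positivity) (by rw [div_lt_one h0]; linarith)
  refine ⟨D, ?_⟩
  have h1 : (0 : ℝ) < (Q : ℝ) ^ D := by positivity
  rw [div_pow, div_lt_div_iff₀ h1 (by positivity)] at hD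
  have h2 : (0 : ℝ) ≤ ((Q : ℝ) - 1) ^ D := pow_nonneg (by linarith) _
  nlinarith

theorem core {I : Set (Set ℕ)} (hI : Small I) {r : ℕ} (χ : ℕ → Fin r) (Q q : ℕ) (hQ : 2 ≤ Q)
    (hq : q ∣ Q) : MM I Q q χ ∉ I := by
  intro hMM
  obtain ⟨D, hD⟩ := exD r Q hQ
  choose G rk c Z hG hZ hdesc using fun (m : ℕ) (i : Fin r) => rank hI Q (Good χ i m)
  obtain ⟨y, P, hy, hbad⟩ := sq_exists hI Q (D + 1) (by omega)
    (fun n => Q * Rn Q (ad Q (Classical.choose (bk_ex n)))) (badS (MM I Q q χ) Z)
    (badS_mem hI _ hMM Z hZ)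
  obtain ⟨Ω, i, u, hu, hinf, hfull⟩ := om χ Q D hQ hD _ y P hy (by
    intro n j h1 h2
    obtain ⟨h3, h4⟩ := Classical.choose_spec (bk_ex n)
    rw [bk_uniq h1 h2 h3 h4])
  have hmono := hy.mono
  have hid : ∀ n, n ≤ y n := fun n => hmono.id_le n
  -- the two base points
  obtain ⟨a, _, haΩ, ha⟩ := hfull ⟨0, by omega⟩ 0
  obtain ⟨b, hab, hbΩ, hb⟩ := hfull ⟨1, by omega⟩ (a + 1)
  have hab' : a < b := hab
  have hyab : y a < y b := hmono hab'
  obtain ⟨m, hm⟩ : ∃ m, m = y b - y a := ⟨_, rfl⟩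
  have hm0 : 0 < m := by omega
  have ha' : y a ≡ Q * Rn Q u [MOD Q ^ ((u.length + 1) + 1)] := by
    have h1 : Q * (Rn Q u + (0 : ℕ) * Q ^ u.length) = Q * Rn Q u := by ring
    have h2 := ha
    simp only [h1] at h2
    exact h2
  have hb' : y b ≡ Q * Rn Q u + Q ^ (u.length + 1) [MOD Q ^ ((u.length + 1) + 1)] := by
    have h1 : Q * (Rn Q u + (1 : ℕ) * Q ^ u.length) = Q * Rn Q u + Q ^ (u.length + 1) := by ring
    have h2 := hb
    simp only [h1] at h2
    exact h2
  have hrat : ∀ (c : Fin Q) (n : ℕ), b < n →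
      y n ≡ Q * (Rn Q u + c * Q ^ u.length) [MOD Q ^ (u.length + 2)] →
      ∃ t : ℕ, y n = y a + t * m ∧ t ≡ c [MOD Q] := by
    intro c n hn h1
    have h2 : Q * (Rn Q u + c * Q ^ u.length) = Q * Rn Q u + c * Q ^ (u.length + 1) := by ring
    rw [h2] at h1
    rw [hm]
    exact sq_ratio hy hQ hab' hn ha' hb' h1
  have hqm : q ∣ m := by
    have hQm : Q ∣ m := by
      have h1 : y a ≡ Q * Rn Q u [MOD Q] := ha'.of_dvd (dvd_pow_self Q (by omega))
      have h2 : y b ≡ Q * Rn Q u + Q ^ (u.length + 1) [MOD Q] := hb'.of_dvd (dvd_pow_self Q (by omega))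
      have h3 : Q ∣ Q * Rn Q u := Dvd.intro _ rfl
      have h4 : Q ∣ Q ^ (u.length + 1) := dvd_pow_self Q (by omega)
      have h5 : Q ∣ y a := (Nat.ModEq.dvd_iff h1 dvd_rfl).2 h3
      have h6 : Q ∣ y b := (Nat.ModEq.dvd_iff h2 dvd_rfl).2 (dvd_add h3 h4)
      rw [hm]
      exact Nat.dvd_sub h6 h5
    exact hq.trans hQm
  -- the past of the sequence
  have hmem : ∀ n k, k < n → y k ∈ ((List.range n).map y).toFinset := by
    intro n k hk
    rw [List.mem_toFinset, List.mem_map]
    exact ⟨k, List.mem_range.2 hk, rfl⟩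
  -- `m` is not a multiplier
  have hmM : m ∉ MM I Q q χ := by
    intro h1
    apply hbad b
    refine Or.inl (Set.mem_iUnion₂.2 ⟨y a, hmem b a hab', m, h1, ?_⟩)
    show y a + m * 1 = y b
    omega
  have hempty : ∅ ∉ G m i := fun h1 => hmM ⟨hm0, hqm, i, G m i, h1, hG m i⟩
  -- the descent
  have hfin : ∀ (o : Ordinal.{0}) (F : Finset ℕ), rk m i F = o → F ∉ G m i →
      (∀ t ∈ F, y a + t * m ∈ Ω) → False := by
    intro o
    induction o using WellFoundedLT.induction with
    | _ o ih =>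
      intro F hrk hFG hFΩ
      have hgood : Good χ i m F := by
        have h1 := hinf (insert (y a) (insert (y b) (F.image (fun t => y a + t * m)))) (by
          intro z hz
          rw [Finset.mem_coe, Finset.mem_insert, Finset.mem_insert, Finset.mem_image] at hz
          rcases hz with rfl | rfl | ⟨t, ht, rfl⟩
          · exact haΩ
          · exact hbΩ
          · exact hFΩ t ht)
        have h2 := h1.image (f := fun N => N + y a) (fun N _ N' _ h => Nat.add_right_cancel h)
        refine h2.mono ?_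
        rintro _ ⟨N, hN, rfl⟩
        have hN1 := hN (y a) (Finset.mem_insert_self _ _)
        have hN2 := hN (y b) (Finset.mem_insert_of_mem (Finset.mem_insert_self _ _))
        refine ⟨hN1, ?_, ?_⟩
        · show Pri χ i (N + y a + m)
          have h3 : N + y a + m = N + y b := by omega
          rw [h3]
          exact hN2
        · intro t ht
          have hN3 := hN (y a + t * m) (Finset.mem_insert_of_mem (Finset.mem_insert_of_mem
            (Finset.mem_image_of_mem _ ht)))
          show Pri χ i (N + y a + t * m)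
          have h3 : N + y a + t * m = N + (y a + t * m) := by omega
          rw [h3]
          exact hN3
      have hcQ : c m i F % Q < Q := Nat.mod_lt _ (by omega)
      obtain ⟨n, hn, hnΩ, hnr⟩ := hfull ⟨c m i F % Q, hcQ⟩ (b + 2 + y a + F.sup id * m + F.sup id)
      obtain ⟨t, ht, htc⟩ := hrat ⟨c m i F % Q, hcQ⟩ n (by omega) hnr
      have htc' : t ≡ c m i F [MOD Q] := htc.trans (Nat.mod_modEq _ _)
      have hsup : ∀ s ∈ F, s ≤ F.sup id := fun s hs => Finset.le_sup (f := id) hs
      have htF : t ∉ F := by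
        intro h1
        have h2 := Nat.mul_le_mul_right m (hsup t h1)
        have h3 := hid n
        omega
      have htZ : t ∉ Z m i F := by
        intro h1
        apply hbad n
        have hbn : b < n := by omega
        refine Or.inr (Set.mem_iUnion₂.2 ⟨y a, hmem n a (by omega), Set.mem_iUnion₂.2 ⟨y b,
          Finset.mem_filter.2 ⟨hmem n b hbn, hyab⟩, Set.mem_iUnion₂.2 ⟨F, ?_,
          Set.mem_iUnion₂.2 ⟨i, Finset.mem_univ _, t, ?_, ?_⟩⟩⟩⟩)
        · rw [Finset.mem_powerset]
          intro s hs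
          rw [Finset.mem_range]
          have h2 := hsup s hs
          have h3 : y (n - 1) ≤ ((List.range n).map y).toFinset.sup id :=
            Finset.le_sup (f := id) (hmem n (n - 1) (by omega))
          have h4 := hid (n - 1)
          omega
        · rw [← hm]
          exact h1
        · show y a + t * (y b - y a) = y n
          rw [← hm, ht]
      obtain ⟨h1, h2⟩ := hdesc m i F hFG hgood t htc' htF htZ
      refine ih (rk m i (insert t F)) (by rw [← hrk]; exact h2) (insert t F) rfl h1 ?_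
      intro s hs
      rcases Finset.mem_insert.1 hs with rfl | hs
      · rw [← ht]
        exact hnΩ
      · exact hFΩ s hs
  exact hfin _ ∅ rfl hempty (fun t ht => absurd ht (Finset.notMem_empty t))

theorem thm_ii {I : Set (Set ℕ)} (hI : Small I) {r : ℕ} (χ : ℕ → Fin r) (Q q : ℕ) (hQ : 0 < Q)
    (hq : 0 < q) : MM I Q q χ ∉ I := by
  intro h
  refine core hI χ (2 * q * Q) q ?_ ⟨2 * Q, by ring⟩ (hI.mono _ h _ ?_)
  · have := Nat.mul_pos hq hQ
    nlinarith
  · rintro m ⟨h1, h2, i, G, h3, h4⟩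
    refine ⟨h1, h2, i, G, h3, fun F hF => ⟨(h4 F hF).1, fun c hc => (h4 F hF).2 c (hI.mono _ hc _ ?_)⟩⟩
    rintro t ⟨h5, h6, h7⟩
    exact ⟨h5.of_dvd ⟨2 * q, by ring⟩, h6, h7⟩

end Pool.Agent.H92.II
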