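import Mathlib

/-!
# [H92 II DEF] THEOREM II (infinite integer ratios), MP_8923e7_nt: definitions

Complete proof: table `think`, note 1645. `Small I`: the members of `I` are the small sets. `Good chi i m F`: infinitely many `N` with
`N`, `N + m`, `N + t m` (`t ∈ F`) prime of colour `i`. `Fam I Q chi i m G`: `G` is a family of finite sets with the properties (a), (b).
`MM`: the set of the `m` (divisible by `q`) for which there is such a family. The theorem: `MM` is not small.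

Nodes are lists over `Fin Q × ℕ`, the child `(c, j)` of `u` is `(c, j) :: u` (so the list starts with the DEEPEST level). `Rn Q u` is the
residue of `u`: `∑ digit * Q ^ level`. The blocks have `2 ^ (20 * 2 ^ j)` points, block `j` consists of the points `y n`,
`Sb j ≤ n < Sb (j + 1)`, and belongs to the leaf `ad Q j` (`Encodable.decode`); `bk n` is the block of `n`.
-/

set_option autoImplicit false

namespace Pool.Agent.H92.II

/-- a notion of small sets of natural numbers, invariant under affine maps; residue classes are not small -/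
structure Small (I : Set (Set ℕ)) : Prop where
  mono : ∀ A ∈ I, ∀ B, B ⊆ A → B ∈ I
  union : ∀ A ∈ I, ∀ B ∈ I, A ∪ B ∈ I
  fin : ∀ A : Set ℕ, A.Finite → A ∈ I
  aff : ∀ A ∈ I, ∀ x m : ℕ, 0 < m → (fun t => x + t * m) '' A ∈ I
  ap : ∀ q : ℕ, 0 < q → ∀ a : ℕ, {n : ℕ | n ≡ a [MOD q]} ∉ I

/-- prime of colour `i` -/
def Pri {r : ℕ} (χ : ℕ → Fin r) (i : Fin r) (n : ℕ) : Prop := n.Prime ∧ χ n = i

/-- `N`, `N + m`, `N + t m` (`t ∈ F`) are prime of colour `i` infinitely often -/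
def Good {r : ℕ} (χ : ℕ → Fin r) (i : Fin r) (m : ℕ) (F : Finset ℕ) : Prop :=
  {N : ℕ | Pri χ i N ∧ Pri χ i (N + m) ∧ ∀ t ∈ F, Pri χ i (N + t * m)}.Infinite

/-- the ratios `t` in the class `c` which may be added to `F` -/
def Nx (Q : ℕ) (G : Set (Finset ℕ)) (F : Finset ℕ) (c : ℕ) : Set ℕ :=
  {t | t ≡ c [MOD Q] ∧ t ∉ F ∧ insert t F ∈ G}

/-- a family of finite sets: all members are good, every class contains a large set of continuations -/
def Fam (I : Set (Set ℕ)) (Q : ℕ) (good : Finset ℕ → Prop) (G : Set (Finset ℕ)) : Prop :=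
  ∀ F ∈ G, good F ∧ ∀ c : ℕ, Nx Q G F c ∉ I

/-- the multipliers `m` -/
def MM (I : Set (Set ℕ)) (Q q : ℕ) {r : ℕ} (χ : ℕ → Fin r) : Set ℕ :=
  {m | 0 < m ∧ q ∣ m ∧ ∃ (i : Fin r) (G : Set (Finset ℕ)), ∅ ∈ G ∧ Fam I Q (Good χ i m) G}

/-- the residue of a node -/
def Rn (Q : ℕ) : List (Fin Q × ℕ) → ℕ
  | [] => 0
  | p :: u => Rn Q u + p.1 * Q ^ u.length

/-- the address of a block -/
def ad (Q j : ℕ) : List (Fin Q × ℕ) := ((Encodable.decode j : Option (List (Fin Q × ℕ)))).getD []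

/-- the first point of block `j` -/
def Sb (j : ℕ) : ℕ := ∑ i ∈ Finset.range j, 2 ^ (20 * 2 ^ i)

/-- the block `j` -/
def Vb (y : ℕ → ℕ) (j : ℕ) : Finset ℕ := (Finset.Ico (Sb j) (Sb (j + 1))).image y

/-- the sequence `y` with its moduli `P` -/
structure Sq (Q E : ℕ) (R : ℕ → ℕ) (y P : ℕ → ℕ) : Prop where
  mono : StrictMono y
  res : ∀ n, y n ≡ R n [MOD Q ^ E]
  cop : ∀ n, (P n).Coprime Q
  dvd : ∀ n, P n ∣ P (n + 1)
  step : ∀ n, y (n + 1) ≡ y n [MOD P n]
  dif : ∀ n a b, a < b → b ≤ n → ∃ e : ℕ, y b - y a ∣ P n * Q ^ e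
  prm : ∀ n p, p.Prime → p ≤ n + 3 → ¬ p ∣ Q → p ∣ P n

/-- the block hits of a pattern `ω` in colour `i` -/
def Hit {r : ℕ} (y : ℕ → ℕ) (i : Fin r) (j : ℕ) : Set (ℕ × Fin r → Bool) :=
  {ω | ∃ a ∈ Vb y j, ω (a, i) = true}

end Pool.Agent.H92.II
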