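import Pool.Agent.H92.II.Def

/-!
# [H92 II SQX] existence of the sequence

PROOF. `cop_part`: strong induction on `M`: if `M` is prime to `Q` take `P = M`, `e = 0`; otherwise `g = gcd M Q > 1`, `M = g M'`, apply the induction hypothesis to `M' < M`: `M' ∣ P Q ^ e`, so `M ∣ P Q ^ (e + 1)`.
`small_biU`: induction on the finite set. `sq_step`: for a list `l = [y 0, .., y n]` (`l ≠ []`, `z` its last element), `P` prime to `Q`, a residue `ρ` and a set `B ∈ I` there is `y > z` with `y ≡ ρ [MOD Q ^ E]`,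
`y ≡ z [MOD P]`, `y ∉ B`: the two congruences are one class modulo `P * Q ^ E` (`Nat.chineseRemainder`), the class minus `B` minus `{≤ z}` is not empty (`hI.ap`, otherwise the class is contained in the
union of `B` and a finite set).
`sq_exists`: recursion over the state (list of the points so far, `P`): the next point from `sq_step` with `B = bad (list)`; the next `P'` is `P * P₁` where `P₁` is the part prime to `Q`
(`cop_part`) of `∏ (p ≤ n + 4) p * ∏ (a < b in the list) (b - a)` (any positive multiple of all `b - a` for `a < b` in the new list and of all primes `≤ n + 4` will do, for instance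
`(n + 4)! * (last point)!`: every `b - a` is positive and `≤` the last point, so it divides its factorial). So: `P (n + 1) = P n * (part prime to Q of (n + 4)! * (y (n + 1))!)`,
`P 0 = ` the part prime to `Q` of `3! * (y 0)!`. A prime `p ∤ Q`, `p ∣ P₁ Q ^ e` divides `P₁`.
-/

set_option autoImplicit false

namespace Pool.Agent.H92.II

theorem cop_part (Q : ℕ) (hQ : 0 < Q) (M : ℕ) (hM : 0 < M) :
    ∃ P e : ℕ, 0 < P ∧ P.Coprime Q ∧ M ∣ P * Q ^ e := by
  induction M using Nat.strong_induction_on with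
  | _ M ih =>
    by_cases h : M.Coprime Q
    · exact ⟨M, 0, hM, h, by simp⟩
    · obtain ⟨g, hg⟩ : ∃ g, g = Nat.gcd M Q := ⟨_, rfl⟩
      have hg0 : 0 < g := by
        rw [hg]
        exact Nat.gcd_pos_of_pos_left _ hM
      have hg1 : 1 < g := by
        have h2 : g ≠ 1 := by
          rw [hg]
          exact h
        omega
      have hgM : g ∣ M := hg ▸ Nat.gcd_dvd_left M Q
      have hgQ : g ∣ Q := hg ▸ Nat.gcd_dvd_right M Q
      obtain ⟨M', hM'⟩ := hgM
      have hM'0 : 0 < M' := by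
        rcases Nat.eq_zero_or_pos M' with h0 | h0
        · rw [h0, mul_zero] at hM'
          omega
        · exact h0
      have hlt : M' < M := by
        rw [hM']
        exact lt_mul_left hM'0 hg1
      obtain ⟨P, e, h1, h2, h3⟩ := ih M' hlt hM'0
      refine ⟨P, e + 1, h1, h2, ?_⟩
      have h4 : P * Q ^ (e + 1) = Q * (P * Q ^ e) := by ring
      rw [hM', h4]
      exact mul_dvd_mul hgQ h3

theorem small_biU {I : Set (Set ℕ)} (hI : Small I) {α : Type} (s : Finset α) (A : α → Set ℕ)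
    (h : ∀ a ∈ s, A a ∈ I) : (⋃ a ∈ s, A a) ∈ I := by
  classical
  induction s using Finset.induction_on with
  | empty =>
    have h1 : (⋃ a ∈ (∅ : Finset α), A a) = ∅ := by simp
    rw [h1]
    exact hI.fin ∅ Set.finite_empty
  | insert a s ha ih =>
    rw [Finset.set_biUnion_insert]
    exact hI.union _ (h a (Finset.mem_insert_self a s)) _
      (ih fun b hb => h b (Finset.mem_insert_of_mem hb))

theorem sq_step {I : Set (Set ℕ)} (hI : Small I) (Q E : ℕ) (hQ : 0 < Q) (P : ℕ) (hP : 0 < P)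
    (hc : P.Coprime Q) (z ρ : ℕ) (B : Set ℕ) (hB : B ∈ I) :
    ∃ y : ℕ, z < y ∧ y ≡ ρ [MOD Q ^ E] ∧ y ≡ z [MOD P] ∧ y ∉ B := by
  by_contra hcon
  push Not at hcon
  obtain ⟨k, hk1, hk2⟩ := Nat.chineseRemainder (hc.pow_right E) z ρ
  refine hI.ap (P * Q ^ E) (Nat.mul_pos hP (Nat.pow_pos hQ)) k ?_
  refine hI.mono _ (hI.union _ (hI.fin _ (Set.finite_Iic z)) _ hB) _ ?_
  intro n hn
  by_cases h : n ≤ z
  · exact Or.inl h
  · refine Or.inr (hcon n (by omega) ?_ ?_)
    · exact (Nat.ModEq.of_mul_left P hn).trans hk2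
    · exact (Nat.ModEq.of_mul_right (Q ^ E) hn).trans hk1

/-- the history `[y 0, .., y (n - 1)]` decides which small set is forbidden for `y n` -/
theorem sq_exists {I : Set (Set ℕ)} (hI : Small I) (Q E : ℕ) (hQ : 0 < Q) (R : ℕ → ℕ)
    (bad : List ℕ → Set ℕ) (hbad : ∀ l, bad l ∈ I) :
    ∃ y P : ℕ → ℕ, Sq Q E R y P ∧ ∀ n, y n ∉ bad ((List.range n).map y) := by
  have hpc : ∀ M : ℕ, ∃ P : ℕ, 0 < M → 0 < P ∧ P.Coprime Q ∧ ∃ e : ℕ, M ∣ P * Q ^ e := by
    intro M
    by_cases hM : 0 < M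
    · obtain ⟨P, e, h1, h2, h3⟩ := cop_part Q hQ M hM
      exact ⟨P, fun _ => ⟨h1, h2, e, h3⟩⟩
    · exact ⟨0, fun h => absurd h hM⟩
  choose pc hpc using hpc
  have hf : ∀ (P z ρ : ℕ) (l : List ℕ), ∃ y : ℕ, 0 < P → P.Coprime Q →
      z < y ∧ y ≡ ρ [MOD Q ^ E] ∧ y ≡ z [MOD P] ∧ y ∉ bad l := by
    intro P z ρ l
    by_cases hP : 0 < P
    · by_cases hc : P.Coprime Q
      · obtain ⟨y, hy⟩ := sq_step hI Q E hQ P hP hc z ρ (bad l) (hbad l)
        exact ⟨y, fun _ _ => hy⟩
      · exact ⟨0, fun _ h => absurd h hc⟩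
    · exact ⟨0, fun h => absurd h hP⟩
  choose f hf using hf
  obtain ⟨st, hst0, hst⟩ : ∃ st : ℕ → List ℕ × ℕ × ℕ,
      st 0 = ([f 1 0 (R 0) []], f 1 0 (R 0) [],
        pc (Nat.factorial 3 * Nat.factorial (f 1 0 (R 0) []))) ∧
      ∀ n, st (n + 1) = ((st n).1 ++ [f (st n).2.2 (st n).2.1 (R (n + 1)) (st n).1],
        f (st n).2.2 (st n).2.1 (R (n + 1)) (st n).1,
        (st n).2.2 * pc (Nat.factorial (n + 4) *
          Nat.factorial (f (st n).2.2 (st n).2.1 (R (n + 1)) (st n).1))) :=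
    ⟨fun n => Nat.rec ([f 1 0 (R 0) []], f 1 0 (R 0) [],
        pc (Nat.factorial 3 * Nat.factorial (f 1 0 (R 0) [])))
      (fun n s => (s.1 ++ [f s.2.2 s.2.1 (R (n + 1)) s.1],
        f s.2.2 s.2.1 (R (n + 1)) s.1,
        s.2.2 * pc (Nat.factorial (n + 4) *
          Nat.factorial (f s.2.2 s.2.1 (R (n + 1)) s.1)))) n, rfl, fun n => rfl⟩
  obtain ⟨y, hy⟩ : ∃ y : ℕ → ℕ, ∀ n, y n = (st n).2.1 := ⟨_, fun n => rfl⟩
  obtain ⟨P, hPd⟩ : ∃ P : ℕ → ℕ, ∀ n, P n = (st n).2.2 := ⟨_, fun n => rfl⟩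
  have hlist : ∀ n, (st n).1 = (List.range (n + 1)).map y := by
    intro n
    induction n with
    | zero =>
      have h1 : (List.range (0 + 1)).map y = [y 0] := by simp
      rw [h1, hy 0, hst0]
    | succ n ih =>
      rw [List.range_succ, List.map_append, ← ih, hst n]
      have h1 : List.map y [n + 1] = [y (n + 1)] := rfl
      rw [h1, hy (n + 1), hst n]
  have hy1 : ∀ n, y (n + 1) = f (P n) (y n) (R (n + 1)) ((List.range (n + 1)).map y) := by
    intro n
    rw [hy (n + 1), hst n, ← hlist n, hPd n, hy n]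
  have hP1 : ∀ n, P (n + 1) = P n * pc (Nat.factorial (n + 4) * Nat.factorial (y (n + 1))) := by
    intro n
    rw [hPd (n + 1), hy (n + 1), hst n, hPd n]
  have hy0 : y 0 = f 1 0 (R 0) [] := by rw [hy 0, hst0]
  have hP0 : P 0 = pc (Nat.factorial 3 * Nat.factorial (y 0)) := by
    rw [hPd 0, hy 0, hst0]
  have hfac : ∀ a b : ℕ, 0 < Nat.factorial a * Nat.factorial b := fun a b =>
    Nat.mul_pos (Nat.factorial_pos a) (Nat.factorial_pos b)
  have hPp : ∀ n, 0 < P n ∧ (P n).Coprime Q := by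
    intro n
    induction n with
    | zero =>
      obtain ⟨h1, h2, _⟩ := hpc _ (hfac 3 (y 0))
      rw [hP0]
      exact ⟨h1, h2⟩
    | succ n ih =>
      obtain ⟨h1, h2, _⟩ := hpc _ (hfac (n + 4) (y (n + 1)))
      rw [hP1]
      exact ⟨Nat.mul_pos ih.1 h1, Nat.Coprime.mul_left ih.2 h2⟩
  have hPe : ∀ n, ∃ P' e : ℕ, P' ∣ P n ∧ Nat.factorial (n + 3) * Nat.factorial (y n) ∣ P' * Q ^ e := by
    intro n
    cases n with
    | zero =>
      obtain ⟨_, _, e, he⟩ := hpc _ (hfac 3 (y 0))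
      exact ⟨_, e, by rw [hP0], he⟩
    | succ n =>
      obtain ⟨_, _, e, he⟩ := hpc _ (hfac (n + 4) (y (n + 1)))
      exact ⟨_, e, by rw [hP1]; exact dvd_mul_left _ _, he⟩
  have hs : ∀ n, y n < y (n + 1) ∧ y (n + 1) ≡ R (n + 1) [MOD Q ^ E] ∧ y (n + 1) ≡ y n [MOD P n] ∧
      y (n + 1) ∉ bad ((List.range (n + 1)).map y) := by
    intro n
    have h1 := hf (P n) (y n) (R (n + 1)) ((List.range (n + 1)).map y) (hPp n).1 (hPp n).2
    rw [← hy1 n] at h1
    exact h1
  have h00 := hf 1 0 (R 0) [] Nat.one_pos (Nat.coprime_one_left Q)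
  rw [← hy0] at h00
  have hmono : StrictMono y := strictMono_nat_of_lt_succ fun n => (hs n).1
  refine ⟨y, P, ⟨hmono, ?_, fun n => (hPp n).2, ?_, fun n => (hs n).2.2.1, ?_, ?_⟩, ?_⟩
  · intro n
    cases n with
    | zero => exact h00.2.1
    | succ n => exact (hs n).2.1
  · intro n
    rw [hP1 n]
    exact dvd_mul_right _ _
  · intro n a b hab hbn
    obtain ⟨P', e, h1, h2⟩ := hPe n
    refine ⟨e, ?_⟩
    have h3 : y a < y b := hmono hab
    have h4 : y b ≤ y n := hmono.monotone hbn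
    have h5 : y b - y a ∣ Nat.factorial (y n) := Nat.dvd_factorial (by omega) (by omega)
    exact (h5.trans ((dvd_mul_left _ _).trans h2)).trans (mul_dvd_mul_right h1 _)
  · intro n p hp hpn hpQ
    obtain ⟨P', e, h1, h2⟩ := hPe n
    have h3 : p ∣ Nat.factorial (n + 3) := Nat.dvd_factorial hp.pos hpn
    have h4 : p ∣ P' * Q ^ e := (h3.trans (dvd_mul_right _ _)).trans h2
    rcases hp.dvd_mul.1 h4 with h5 | h5
    · exact h5.trans h1
    · exact absurd (hp.dvd_of_dvd_pow h5) hpQ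
  · intro n
    cases n with
    | zero => exact h00.2.2.2
    | succ n => exact (hs n).2.2.2

end Pool.Agent.H92.II
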