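import Pool.Agent.H92.II.Def
import Pool.Agent.H21.MT.Sieve
import Pool.Agent.H21.MT.Pz

/-!
# [H92 II WLD] the infinite block theorem: every block is hit with probability `≥ 10 ^ (-23)`

PROOF. This is `c1step` of `Pool/Agent/H21/MT/Core1.lean` with `H = V`, `l j = 20 * 2 ^ j`, but its lemmas are private: copy `c1be`, `c1ta`, `c1be_pos`, `c1be_le`, `c1ta_pos`, `c1ta_mul`, `c1sum`,
`c1Y`, `c1Y1`, `c1step` (rename them, private, same namespace here; `open Pool.Agent.H21.MT` for `sieve`, `pz`). `c1step` gives `T`, `μ` with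
`10 ^ (-23) ≤ ∑ N ∈ T.filter (fun N => (1 / 10 ^ 10) / 2 * (...) ≤ #{a ∈ V j | (N + a).Prime}), μ N` and `(...) ≥ 1` (`c1Y1`), so such an `N` has at least one `a ∈ V j` with `(N + a).Prime`:
`Finset.sum_le_sum_of_subset_of_nonneg`, `Finset.filter_subset_filter` or `monotone_filter_right`.
-/

set_option autoImplicit false

namespace Pool.Agent.H92.II

open Finset Pool.Agent.H21.MT

/-- weight of a block -/
private noncomputable def w1be (j : ℕ) : ℝ := (1 / 20) * (1 / 2) ^ j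

private noncomputable def w1ta (l : ℕ → ℕ) (j : ℕ) : ℝ := w1be j / (2 ^ l j * ((l j : ℝ) + 1))

private theorem w1be_pos (j : ℕ) : 0 < w1be j := by
  unfold w1be
  positivity

private theorem w1be_le (j : ℕ) : w1be j ≤ 1 / 20 := by
  unfold w1be
  have : (1 / 2 : ℝ) ^ j ≤ 1 := pow_le_one₀ (by norm_num) (by norm_num)
  linarith

private theorem w1ta_pos (l : ℕ → ℕ) (j : ℕ) : 0 < w1ta l j := by
  unfold w1ta
  have := w1be_pos j
  positivity

private theorem w1ta_mul (l : ℕ → ℕ) (j : ℕ) :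
    (2 : ℝ) ^ l j * w1ta l j * ((l j : ℝ) + 1) = w1be j := by
  unfold w1ta
  field_simp

private theorem w1sum (m : ℕ) : ∑ j ∈ range m, w1be j = 1 / 10 - (1 / 10) * (1 / 2) ^ m := by
  induction m with
  | zero => simp
  | succ m ih =>
    rw [sum_range_succ, ih]
    unfold w1be
    rw [pow_succ]
    ring

private theorem w1Y (l : ℕ → ℕ) (j : ℕ) :
    w1be j * ((l j : ℝ) + 1) ≤ (2 : ℝ) ^ l j * (w1ta l j * ((l j : ℝ) + 2) ^ 2) := by
  have h1 := w1ta_mul l j
  have h2 := w1ta_pos l j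
  rw [← h1]
  have h3 : (0 : ℝ) ≤ (2 : ℝ) ^ l j * w1ta l j := by positivity
  have h4 : ((l j : ℝ) + 1) * ((l j : ℝ) + 1) ≤ ((l j : ℝ) + 2) ^ 2 := by
    have : (0 : ℝ) ≤ l j := Nat.cast_nonneg _
    nlinarith
  calc (2 : ℝ) ^ l j * w1ta l j * ((l j : ℝ) + 1) * ((l j : ℝ) + 1) =
        ((2 : ℝ) ^ l j * w1ta l j) * (((l j : ℝ) + 1) * ((l j : ℝ) + 1)) := by ring
    _ ≤ ((2 : ℝ) ^ l j * w1ta l j) * ((l j : ℝ) + 2) ^ 2 := mul_le_mul_of_nonneg_left h4 h3
    _ = _ := by ring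

private theorem w1Y1 (l : ℕ → ℕ) (j : ℕ) (hl : 20 * 2 ^ j ≤ l j) :
    1 ≤ (2 : ℝ) ^ l j * (w1ta l j * ((l j : ℝ) + 2) ^ 2) := by
  refine le_trans ?_ (w1Y l j)
  have h1 : (20 : ℝ) * 2 ^ j ≤ l j := by exact_mod_cast hl
  have h2 : w1be j * (20 * 2 ^ j) = 1 := by
    unfold w1be
    rw [one_div, one_div, inv_pow]
    field_simp
  have h3 := w1be_pos j
  nlinarith

open Classical in
/-- the sieve and the second moment for the first `n + 1` blocks -/
private theorem w1step (H : ℕ → Finset ℕ) (l : ℕ → ℕ) (hcard : ∀ j, (H j).card = 2 ^ l j)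
    (hdisj : ∀ i j, i ≠ j → Disjoint (H i) (H j)) (hl : ∀ j, 20 * 2 ^ j ≤ l j)
    (hadm : ∀ p : ℕ, p.Prime → ∃ a : ℕ, ∀ j, ∀ h ∈ H j, ¬ p ∣ a + h) (n : ℕ) :
    ∃ (T : Finset ℕ) (μ : ℕ → ℝ), (∀ N ∈ T, n < N) ∧ (∀ N, 0 ≤ μ N) ∧ ∑ N ∈ T, μ N = 1 ∧
      ∀ j ≤ n, (1 / 10 ^ 23 : ℝ) ≤ ∑ N ∈ T.filter (fun N => (1 / 10 ^ 10) / 2 *
        ((2 : ℝ) ^ l j * (w1ta l j * ((l j : ℝ) + 2) ^ 2)) ≤
          (((H j).filter (fun a => (N + a).Prime)).card : ℝ)), μ N := by
  let I : Type := Σ j : Fin (n + 1), {h // h ∈ H j.val}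
  have hne : Nonempty I := by
    have h0 : (H 0).Nonempty := by
      rw [← card_pos, hcard]
      positivity
    obtain ⟨a, ha⟩ := h0
    exact ⟨⟨⟨0, by omega⟩, ⟨a, ha⟩⟩⟩
  let hh : I → ℕ := fun i => i.2.val
  have hinj : Function.Injective hh := by
    rintro ⟨j, a, ha⟩ ⟨j', a', ha'⟩ h
    have h1 : a = a' := h
    subst h1
    have h2 : j = j' := by
      by_contra h3
      have h4 := hdisj j.val j'.val (fun h5 => h3 (Fin.ext h5))
      exact (disjoint_left.1 h4 ha) ha'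
    subst h2
    rfl
  obtain ⟨T, μ, hT, hμ0, hμ1, hlow, hup⟩ := sieve (I := I) hh hinj (by
    intro p hp
    obtain ⟨a, ha⟩ := hadm p hp
    exact ⟨a, fun i => ha i.1.val i.2.val i.2.2⟩) (fun i => w1ta l i.1.val) (fun i => l i.1.val)
    (fun i => w1ta_pos l _) (fun i => by
      have h1 := w1ta_mul l i.1.val
      have h2 := w1be_le i.1.val
      have h3 : (0 : ℝ) ≤ (2 : ℝ) ^ l i.1.val * w1ta l i.1.val := by
        have := w1ta_pos l i.1.val
        positivity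
      have h4 : (0 : ℝ) ≤ l i.1.val := Nat.cast_nonneg _
      have h5 : (0 : ℝ) ≤ (2 : ℝ) ^ l i.1.val * w1ta l i.1.val * (l i.1.val) := mul_nonneg h3 h4
      nlinarith) (by
      rw [Fintype.sum_sigma]
      have h1 : ∀ j : Fin (n + 1), ∑ _a : {h // h ∈ H j.val}, ((l j.val : ℝ) + 1) * w1ta l j.val =
          w1be j.val := by
        intro j
        rw [sum_const, card_univ, Fintype.card_coe, hcard, nsmul_eq_mul]
        push_cast
        rw [← w1ta_mul l j.val]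
        ring
      rw [Finset.sum_congr rfl (fun j _ => h1 j), Fin.sum_univ_eq_sum_range (fun j => w1be j),
        w1sum]
      have : (0 : ℝ) < (1 / 2) ^ (n + 1) := by positivity
      linarith) n
  refine ⟨T, μ, hT, hμ0, hμ1, ?_⟩
  intro j hj
  let e : {h // h ∈ H j} ↪ I := ⟨fun a => ⟨⟨j, by omega⟩, a⟩, by
    intro a b hab
    have h1 : (⟨⟨j, by omega⟩, a⟩ : I) = ⟨⟨j, by omega⟩, b⟩ := hab
    exact eq_of_heq (Sigma.mk.inj_iff.1 h1).2⟩
  set S : Finset I := (univ : Finset {h // h ∈ H j}).map e with hS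
  have hSc : S.card = 2 ^ l j := by
    rw [hS, card_map, card_univ, Fintype.card_coe, hcard]
  have hSm : ∀ i ∈ S, i.1.val = j := by
    intro i hi
    rw [hS, Finset.mem_map] at hi
    obtain ⟨a, _, rfl⟩ := hi
    rfl
  have hcnt : ∀ N : ℕ, (S.filter (fun i => (N + hh i).Prime)).card =
      ((H j).filter (fun a => (N + a).Prime)).card := by
    intro N
    symm
    apply Finset.card_bij (fun a ha => (e ⟨a, (mem_filter.1 ha).1⟩))
    · intro a ha
      rw [mem_filter]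
      refine ⟨?_, (mem_filter.1 ha).2⟩
      rw [hS]
      exact mem_map_of_mem e (mem_univ _)
    · intro a ha b hb hab
      exact congrArg Subtype.val (e.injective hab)
    · intro i hi
      rw [mem_filter, hS, Finset.mem_map] at hi
      obtain ⟨⟨a, _, rfl⟩, hp⟩ := hi
      exact ⟨a.val, mem_filter.2 ⟨a.2, hp⟩, rfl⟩
  have hpz := pz T μ hμ0 hμ1 S (fun i N => (N + hh i).Prime)
    (w1ta l j * ((l j : ℝ) + 2) ^ 2) (by
      have := w1ta_pos l j
      positivity) (by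
      rw [hSc]
      push_cast
      exact w1Y1 l j (hl j)) (by
      intro i hi
      have h1 := hlow i
      rw [hSm i hi] at h1
      exact h1) (by
      intro i hi i' hi' hii
      have h1 := hup {i, i'} (by simp)
      have h2 : ∏ k ∈ ({i, i'} : Finset I), ((({i, i'} : Finset I).card : ℝ) *
          (w1ta l k.1.val * ((l k.1.val : ℝ) + 2) ^ 2)) =
          4 * (w1ta l j * ((l j : ℝ) + 2) ^ 2) ^ 2 := by
        rw [prod_pair hii, card_pair hii, hSm i hi, hSm i' hi']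
        push_cast
        ring
      rw [h2] at h1
      have h3 : T.filter (fun N => ∀ k ∈ ({i, i'} : Finset I), (N + hh k).Prime) =
          T.filter (fun N => (N + hh i).Prime ∧ (N + hh i').Prime) := by
        apply filter_congr
        intro N _
        simp
      rw [h3] at h1
      linarith)
  refine hpz.trans (le_of_eq ?_)
  apply Finset.sum_congr _ (fun _ _ => rfl)
  apply filter_congr
  intro N _
  rw [hSc]
  have h5 := hcnt N
  constructor
  · intro h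
    rw [← h5]
    push_cast at h
    exact h
  · intro h
    rw [← h5] at h
    push_cast
    exact h

open Classical in
theorem world (V : ℕ → Finset ℕ) (hcard : ∀ j, (V j).card = 2 ^ (20 * 2 ^ j))
    (hdis : ∀ i j, i ≠ j → Disjoint (V i) (V j))
    (hadm : ∀ p : ℕ, p.Prime → ∃ a : ℕ, ∀ j, ∀ h ∈ V j, ¬ p ∣ a + h) (n : ℕ) :
    ∃ (T : Finset ℕ) (μ : ℕ → ℝ), (∀ N ∈ T, n < N) ∧ (∀ N, 0 ≤ μ N) ∧ ∑ N ∈ T, μ N = 1 ∧
      ∀ j ≤ n, (1 / 10 ^ 23 : ℝ) ≤
        ∑ N ∈ T.filter (fun N => ∃ a ∈ V j, (N + a).Prime), μ N := by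
  obtain ⟨T, μ, hT, hμ0, hμ1, h⟩ := w1step V (fun j => 20 * 2 ^ j) hcard hdis (fun j => le_rfl) hadm n
  refine ⟨T, μ, hT, hμ0, hμ1, fun j hj => (h j hj).trans ?_⟩
  apply Finset.sum_le_sum_of_subset_of_nonneg
  · intro N hN
    rw [mem_filter] at hN ⊢
    refine ⟨hN.1, ?_⟩
    have h1 := hN.2
    have h2 := w1Y1 (fun j => 20 * 2 ^ j) j le_rfl
    have h3 : (0 : ℝ) < (((V j).filter (fun a => (N + a).Prime)).card : ℝ) := by
      refine lt_of_lt_of_le ?_ h1
      have h4 : (0 : ℝ) < (1 / 10 ^ 10) / 2 := by norm_num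
      exact mul_pos h4 (lt_of_lt_of_le one_pos h2)
    have h5 : 0 < ((V j).filter (fun a => (N + a).Prime)).card := by exact_mod_cast h3
    obtain ⟨a, ha⟩ := card_pos.1 h5
    rw [mem_filter] at ha
    exact ⟨a, ha.1, ha.2⟩
  · intro N _ _
    exact hμ0 N

end Pool.Agent.H92.II
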